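import Mathlib
import Pool.Agent.MP_e8bb44_al.Defs

-- part MP_e8bb44_al.Exist
section

set_option autoImplicit false

namespace Pool.Agent.MP_e8bb44_al

open Matrix

variable {ι : Type} [Fintype ι] [DecidableEq ι] {F : Type} [Field F]

/-- strictly block upper triangular -/
def SUp (β : ι → ℕ) (g : Matrix ι ι F) : Prop := ∀ x y, ¬ β x < β y → g x y = 0

omit [DecidableEq ι] in
theorem SUp.mul_left {β : ι → ℕ} {g n : Matrix ι ι F} (hg : g.BlockTriangular β) (hn : SUp β n) :
    SUp β (g * n) := by
  intro x y hxy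
  rw [Matrix.mul_apply]
  apply Finset.sum_eq_zero
  intro z _
  by_cases h : β z < β x
  · rw [hg h, zero_mul]
  · rw [hn z y (by omega), mul_zero]

omit [DecidableEq ι] in
theorem SUp.mul_right {β : ι → ℕ} {g n : Matrix ι ι F} (hn : SUp β n) (hg : g.BlockTriangular β) :
    SUp β (n * g) := by
  intro x y hxy
  rw [Matrix.mul_apply]
  apply Finset.sum_eq_zero
  intro z _
  by_cases h : β y < β z
  · rw [hg h, mul_zero]
  · rw [hn x z (by omega), zero_mul]

omit [Fintype ι] [DecidableEq ι] in
theorem SUp.add {β : ι → ℕ} {m n : Matrix ι ι F} (hm : SUp β m) (hn : SUp β n) :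
    SUp β (m + n) := fun x y h => by simp [hm x y h, hn x y h]

omit [Fintype ι] [DecidableEq ι] in
theorem SUp.sub {β : ι → ℕ} {m n : Matrix ι ι F} (hm : SUp β m) (hn : SUp β n) :
    SUp β (m - n) := fun x y h => by simp [hm x y h, hn x y h]

omit [Fintype ι] [DecidableEq ι] in
theorem SUp.zero {β : ι → ℕ} : SUp β (0 : Matrix ι ι F) := fun _ _ _ => rfl

omit [Fintype ι] [DecidableEq ι] in
theorem SUp.bt {β : ι → ℕ} {m : Matrix ι ι F} (hm : SUp β m) : m.BlockTriangular β :=
  fun x y h => hm x y (by omega)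

omit [Fintype ι] [DecidableEq ι] in
theorem bt_of_refine {β κ : ι → ℕ} (h : ∀ x y, β x < β y → κ x < κ y) {g : Matrix ι ι F}
    (hg : g.BlockTriangular κ) : g.BlockTriangular β := fun _ _ hxy => hg (h _ _ hxy)

/-- admissible pairs of a left and a right factor -/
structure Pair (κ β : ι → ℕ) (g h : Matrix ι ι F) : Prop where
  left : g.BlockTriangular κ
  right : h.BlockTriangular κ
  tie : SUp β (g * h - 1)

theorem Pair.comp {β κ : ι → ℕ} (hr : ∀ x y, β x < β y → κ x < κ y)
    {g1 h1 g2 h2 : Matrix ι ι F} (p1 : Pair κ β g1 h1) (p2 : Pair κ β g2 h2) :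
    Pair κ β (g2 * g1) (h1 * h2) := by
  refine ⟨p2.left.mul p1.left, p1.right.mul p2.right, ?_⟩
  have : g2 * g1 * (h1 * h2) - 1 = g2 * (g1 * h1 - 1) * h2 + (g2 * h2 - 1) := by
    simp only [Matrix.mul_sub, Matrix.sub_mul, Matrix.mul_one, Matrix.mul_assoc]
    abel
  rw [this]
  exact ((p1.tie.mul_left (bt_of_refine hr p2.left)).mul_right (bt_of_refine hr p2.right)).add
    p2.tie

theorem Pair.diag {β κ : ι → ℕ} {g h : Matrix ι ι F} (p : Pair κ β g h) (x : ι)
    (hx : ∀ z, κ z = κ x → z = x) : g x x * h x x = 1 := by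
  have h1 := p.tie x x (lt_irrefl _)
  rw [Matrix.sub_apply, Matrix.one_apply_eq, sub_eq_zero, Matrix.mul_apply,
    Finset.sum_eq_single x] at h1
  · exact h1
  · intro z _ hz
    rcases lt_trichotomy (κ z) (κ x) with h | h | h
    · rw [p.left h, zero_mul]
    · exact absurd (hx z h) hz
    · rw [p.right h, mul_zero]
  · simp

theorem mul_one_add_row (M : Matrix ι ι F) (q : ι) (u : ι → F) (x y : ι) :
    (M * (1 + vecMulVec (Pi.single q 1) u)) x y = M x y + M x q * u y := by
  rw [Matrix.mul_add, Matrix.mul_one, Matrix.add_apply, Matrix.mul_apply,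
    Finset.sum_eq_single q]
  · simp [vecMulVec_apply]
  · intro z _ hz; simp [vecMulVec_apply, hz]
  · simp

theorem one_sub_row_mul (M : Matrix ι ι F) (q : ι) (u : ι → F) (x y : ι) (hx : x ≠ q) :
    ((1 - vecMulVec (Pi.single q 1) u) * M) x y = M x y := by
  rw [Matrix.sub_mul, Matrix.one_mul, Matrix.sub_apply, Matrix.mul_apply]
  simp [vecMulVec_apply, hx]

theorem one_add_col_mul (M : Matrix ι ι F) (p : ι) (w : ι → F) (x y : ι) :
    ((1 + vecMulVec w (Pi.single p 1)) * M) x y = M x y + w x * M p y := by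
  rw [Matrix.add_mul, Matrix.one_mul, Matrix.add_apply, Matrix.mul_apply,
    Finset.sum_eq_single p]
  · simp [vecMulVec_apply]
  · intro z _ hz; simp [vecMulVec_apply, hz]
  · simp

theorem mul_one_add_col (M : Matrix ι ι F) (p : ι) (w : ι → F) (x y : ι) (hy : y ≠ p) :
    (M * (1 + vecMulVec w (Pi.single p 1))) x y = M x y := by
  rw [Matrix.mul_add, Matrix.mul_one, Matrix.add_apply, Matrix.mul_apply]
  simp [vecMulVec_apply, hy]

omit [DecidableEq ι] in
theorem row_zero_mul (M N : Matrix ι ι F) (x : ι) (h : ∀ z, M x z = 0) (y : ι) :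
    (M * N) x y = 0 := by
  rw [Matrix.mul_apply]; simp [h]

omit [DecidableEq ι] in
theorem mul_col_zero (M N : Matrix ι ι F) (y : ι) (h : ∀ z, N z y = 0) (x : ι) :
    (M * N) x y = 0 := by
  rw [Matrix.mul_apply]; simp [h]

theorem pair_row {κ β : ι → ℕ} (q : ι) (u : ι → F) (hq : u q = 0)
    (hu : ∀ y, κ y < κ q → u y = 0) :
    Pair κ β (1 - vecMulVec (Pi.single q 1) u) (1 + vecMulVec (Pi.single q 1) u) := by
  have hE : (vecMulVec (Pi.single q (1 : F)) u).BlockTriangular κ := by
    intro x y hxy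
    by_cases hx : x = q
    · subst hx; simp [vecMulVec_apply, hu y hxy]
    · simp [vecMulVec_apply, hx]
  refine ⟨blockTriangular_one.sub hE, blockTriangular_one.add hE, ?_⟩
  have : (1 - vecMulVec (Pi.single q (1 : F)) u) * (1 + vecMulVec (Pi.single q 1) u) - 1 = 0 := by
    ext x y
    rw [Matrix.sub_apply, mul_one_add_row]
    by_cases hx : x = q
    · subst hx; simp [vecMulVec_apply, hq]
    · simp [vecMulVec_apply, hx, Matrix.one_apply_ne hx]
  rw [this]; exact SUp.zero

theorem pair_col {κ β : ι → ℕ} (p : ι) (w : ι → F) (t : F) (hp : t * (1 + w p) = 1)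
    (hw : ∀ x, κ p < κ x → w x = 0) :
    Pair κ β (1 + vecMulVec w (Pi.single p 1)) (1 + vecMulVec (fun x => -t * w x) (Pi.single p 1)) := by
  have hE : ∀ v : ι → F, (∀ x, κ p < κ x → v x = 0) →
      (vecMulVec v (Pi.single p (1 : F))).BlockTriangular κ := by
    intro v hv x y hxy
    by_cases hy : y = p
    · subst hy; simp [vecMulVec_apply, hv x hxy]
    · simp [vecMulVec_apply, hy]
  refine ⟨blockTriangular_one.add (hE w hw),
    blockTriangular_one.add (hE _ (fun x hx => by simp [hw x hx])), ?_⟩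
  have : (1 + vecMulVec w (Pi.single p (1 : F))) *
      (1 + vecMulVec (fun x => -t * w x) (Pi.single p 1)) - 1 = 0 := by
    ext x y
    rw [Matrix.sub_apply, one_add_col_mul]
    by_cases hy : y = p
    · subst hy
      simp only [Matrix.add_apply, vecMulVec_apply, Pi.single_eq_same, mul_one,
        Matrix.one_apply_eq, Matrix.zero_apply]
      linear_combination (- w x) * hp
    · simp [vecMulVec_apply, hy, Matrix.one_apply_ne (Ne.symm hy)]
  rw [this]; exact SUp.zero

/-- at most one root in each row and column -/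
def Rook (D : Finset (ι × ι)) : Prop :=
  (∀ p ∈ D, ∀ q ∈ D, p.1 = q.1 → p = q) ∧ (∀ p ∈ D, ∀ q ∈ D, p.2 = q.2 → p = q)

theorem core (β : ι → ℕ) : ∀ (N : ℕ) (C : Finset ι) (κ : ι → ℕ) (M : Matrix ι ι F),
    C.card ≤ N → (∀ x y, β x < β y → κ x < κ y) →
    (∀ x ∈ C, ∀ y ∈ C, β x = β y → κ x = κ y) →
    (∀ x y, M x y ≠ 0 → β y < β x ∧ y ∈ C) →
    ∃ (g h : Matrix ι ι F) (D : Finset (ι × ι)), Pair κ β g h ∧ Rook D ∧
      (∀ e ∈ D, β e.1 < β e.2 ∧ e.1 ∈ C) ∧
      ∀ x y, β y < β x → y ∈ C → (g * M * h) x y = if (y, x) ∈ D then 1 else 0 := by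
  classical
  have trivial_case : ∀ (C : Finset ι) (κ : ι → ℕ),
      ∃ (g h : Matrix ι ι F) (D : Finset (ι × ι)), Pair κ β g h ∧ Rook D ∧
      (∀ e ∈ D, β e.1 < β e.2 ∧ e.1 ∈ C) ∧
      ∀ x y, β y < β x → y ∈ C → (g * (0 : Matrix ι ι F) * h) x y = if (y, x) ∈ D then 1 else 0 := by
    intro C κ
    refine ⟨1, 1, ∅, ⟨blockTriangular_one, blockTriangular_one, by simpa using SUp.zero⟩,
      ⟨by simp, by simp⟩, by simp, by simp⟩
  intro N
  induction N with
  | zero =>
    intro C κ M hC _ _ hM
    have hC0 : C = ∅ := Finset.card_eq_zero.mp (by omega)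
    have : M = 0 := by
      ext x y
      by_contra h
      have := (hM x y h).2
      simp [hC0] at this
    rw [this]; exact trivial_case C κ
  | succ N ih =>
    intro C κ M hC h1 h2 hM
    by_cases hM0 : M = 0
    · rw [hM0]; exact trivial_case C κ
    have hne : (Finset.univ.filter (fun x => ∃ y, M x y ≠ 0)).Nonempty := by
      by_contra hcon
      apply hM0
      ext x y
      by_contra h
      exact hcon ⟨x, by simpa using ⟨y, h⟩⟩
    obtain ⟨p, hp, hpmax⟩ := Finset.exists_max_image _ κ hne
    have hne2 : (Finset.univ.filter (fun y => M p y ≠ 0)).Nonempty := by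
      obtain ⟨y, hy⟩ := (Finset.mem_filter.mp hp).2
      exact ⟨y, by simpa using hy⟩
    obtain ⟨q, hq, hqmin⟩ := Finset.exists_min_image _ β hne2
    have hpq : M p q ≠ 0 := (Finset.mem_filter.mp hq).2
    have hrow : ∀ x, κ p < κ x → ∀ y, M x y = 0 := by
      intro x hx y
      by_contra h
      have := hpmax x (by simpa using ⟨y, h⟩)
      omega
    have hqmin' : ∀ y, M p y ≠ 0 → β q ≤ β y := fun y hy => hqmin y (by simpa using hy)
    have hβqp : β q < β p := (hM p q hpq).1
    have hqC : q ∈ C := (hM p q hpq).2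
    have hκqp : κ q < κ p := h1 _ _ hβqp
    have hpneq : p ≠ q := by rintro rfl; omega
    set u : ι → F := fun y => if y = q then 0 else - M p y / M p q with hu
    have hP1 : Pair κ β (1 - vecMulVec (Pi.single q 1) u) (1 + vecMulVec (Pi.single q 1) u) := by
      apply pair_row q u (by simp [hu])
      intro y hy
      by_cases hyq : y = q
      · simp [hu, hyq]
      · have : M p y = 0 := by
          by_contra h
          have a1 := hqmin' y h
          rcases a1.eq_or_lt with a2 | a2
          · have := h2 q hqC y (hM p y h).2 a2; omega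
          · have := h1 _ _ a2; omega
        simp [hu, this]
    set g1 : Matrix ι ι F := 1 - vecMulVec (Pi.single q 1) u with hg1
    set k1 : Matrix ι ι F := 1 + vecMulVec (Pi.single q 1) u with hk1
    set M1 : Matrix ι ι F := g1 * M * k1 with hM1
    have M1_ne : ∀ x y, x ≠ q → M1 x y = M x y + M x q * u y := by
      intro x y hx
      rw [hM1, Matrix.mul_assoc, hg1, one_sub_row_mul _ _ _ _ _ hx, hk1, mul_one_add_row]
    have M1_p : ∀ y, y ≠ q → M1 p y = 0 := by
      intro y hy
      rw [M1_ne p y hpneq]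
      simp only [hu, if_neg hy]
      field_simp
      ring
    have M1_pq : M1 p q = M p q := by
      rw [M1_ne p q hpneq]; simp [hu]
    have M1_row : ∀ x, κ p < κ x → ∀ y, M1 x y = 0 := by
      intro x hx y
      rw [M1_ne x y (by rintro rfl; omega), hrow x hx, hrow x hx]; simp
    have M1_col : ∀ y, y ∉ C → ∀ x, M1 x y = 0 := by
      intro y hy x
      have hz : ∀ z, M z y = 0 := fun z => by
        by_contra h; exact hy (hM z y h).2
      rw [hM1, Matrix.mul_assoc]
      apply mul_col_zero
      intro z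
      rw [hk1, mul_one_add_row, hz]
      have : y ≠ q := by rintro rfl; exact hy hqC
      simp [hu, this, hz]
    set C' : Finset ι := (C.erase q).erase p with hC'
    have memC' : ∀ y, y ∈ C' ↔ y ≠ p ∧ y ≠ q ∧ y ∈ C := by
      intro y; simp [hC']
    set κ' : ι → ℕ := fun x => 2 * κ x + (if x = p ∨ x = q then 1 else 0) with hκ'
    have κ'_le : ∀ x, 2 * κ x ≤ κ' x ∧ κ' x ≤ 2 * κ x + 1 := by
      intro x; simp only [hκ']; split_ifs <;> omega
    have κ'_p : κ' p = 2 * κ p + 1 := by simp [hκ']
    have κ'_q : κ' q = 2 * κ q + 1 := by simp [hκ']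
    have κ'_o : ∀ x, x ≠ p → x ≠ q → κ' x = 2 * κ x := by
      intro x a b; simp [hκ', a, b]
    have hκκ' : ∀ x y, κ x < κ y → κ' x < κ' y := by
      intro x y h; have := κ'_le x; have := κ'_le y; omega
    set M' : Matrix ι ι F := Matrix.of fun x y => if β y < β x ∧ y ∈ C' then M1 x y else 0
      with hM'
    obtain ⟨g', k', D', hP', hR', hD', hE'⟩ := ih C' κ' M'
      (by
        have a1 := Finset.card_erase_of_mem hqC
        have a2 : C'.card ≤ (C.erase q).card := Finset.card_erase_le
        omega)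
      (fun x y h => hκκ' x y (h1 x y h))
      (by
        intro x hx y hy h
        rw [memC'] at hx hy
        rw [κ'_o x hx.1 hx.2.1, κ'_o y hy.1 hy.2.1, h2 x hx.2.2 y hy.2.2 h])
      (by
        intro x y h
        simp only [hM', Matrix.of_apply] at h
        by_contra hc
        exact h (if_neg hc))
    have h1' : ∀ x y, β x < β y → κ' x < κ' y := fun x y h => hκκ' x y (h1 x y h)
    set k'' : Matrix ι ι F := Matrix.of fun x y => if x = q ∧ β q < β y then 0 else k' x y
      with hk''
    have hP'' : Pair κ β g' k'' := by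
      refine ⟨bt_of_refine hκκ' hP'.left, ?_, ?_⟩
      · intro x y hxy
        simp only [hk'', Matrix.of_apply]
        split_ifs
        · rfl
        · exact hP'.right (hκκ' _ _ hxy)
      · have : g' * k'' - 1 = (g' * k' - 1) - g' * (k' - k'') := by
          rw [Matrix.mul_sub]; abel
        rw [this]
        apply hP'.tie.sub
        apply SUp.mul_left (bt_of_refine h1' hP'.left)
        intro x y hxy
        simp only [hk'', Matrix.sub_apply, Matrix.of_apply]
        split_ifs with h
        · rw [h.1] at hxy; exact absurd h.2 hxy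
        · simp
    have hMk : M' * k'' = M' * k' := by
      ext x y
      rw [Matrix.mul_apply, Matrix.mul_apply]
      apply Finset.sum_congr rfl
      intro z _
      by_cases hz : z = q
      · have : M' x z = 0 := by
          simp only [hM', Matrix.of_apply]
          rw [if_neg]
          rw [memC']; tauto
        simp [this]
      · simp [hk'', hz]
    set c : ι → F := fun x => if β q < β x then M1 x q else 0 with hc
    have hU : (M1 - M' - vecMulVec c (Pi.single q 1)).BlockTriangular β := by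
      intro x y hxy
      simp only [Matrix.sub_apply, hM', Matrix.of_apply, vecMulVec_apply, hc]
      by_cases hyq : y = q
      · subst hyq
        have : ¬ (β y < β x ∧ y ∈ C') := by rw [memC']; tauto
        rw [if_neg this]
        simp [hxy]
      · by_cases hyC : y ∈ C'
        · simp [hyC, hxy, hyq]
        · have : M1 x y = 0 := by
            rw [memC'] at hyC
            by_cases hyp : y = p
            · subst hyp; exact M1_row x (h1 _ _ hxy) _
            · exact M1_col y (by tauto) x
          simp [this, hyq]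
    set X : Matrix ι ι F := g' * M1 * k'' with hX
    have X_vis : ∀ x y, β y < β x → X x y = (g' * M' * k') x y + (g' *ᵥ c) x * k'' q y := by
      intro x y hxy
      have e1 : X = g' * (M' * k'') + g' * (vecMulVec c (Pi.single q 1)) * k'' +
          g' * (M1 - M' - vecMulVec c (Pi.single q 1)) * k'' := by
        simp only [hX, Matrix.mul_sub, Matrix.sub_mul, Matrix.mul_assoc]; abel
      have e2 : (g' * (M1 - M' - vecMulVec c (Pi.single q 1)) * k'') x y = 0 :=
        (((bt_of_refine h1 hP''.left).mul hU).mul (bt_of_refine h1 hP''.right)) hxy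
      rw [e1, Matrix.add_apply, Matrix.add_apply, e2, add_zero, hMk, Matrix.mul_assoc g' M' k']
      congr 1
      rw [Matrix.mul_vecMulVec, Matrix.mul_apply, Finset.sum_eq_single q]
      · simp [vecMulVec_apply]
      · intro z _ hz; simp [vecMulVec_apply, hz]
      · simp
    have k''_q : ∀ y ∈ C, y ≠ q → k'' q y = 0 := by
      intro y hy hyq
      simp only [hk'', Matrix.of_apply]
      split_ifs with h
      · rfl
      · apply hP'.right
        have hb : β y ≤ β q := by
          by_contra hh; exact h ⟨trivial, by omega⟩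
        rcases hb.eq_or_lt with a | a
        · have := h2 y hy q hqC a
          have hyp : y ≠ p := by rintro rfl; omega
          rw [κ'_o y hyp hyq, κ'_q]; omega
        · exact h1' _ _ a
    have X_row : ∀ x, κ p < κ x → ∀ y, X x y = 0 := by
      intro x hx y
      rw [hX]
      apply row_zero_mul
      intro z
      rw [Matrix.mul_apply]
      apply Finset.sum_eq_zero
      intro v _
      by_cases hv : κ v < κ x
      · rw [hP''.left hv, zero_mul]
      · rw [M1_row v (by omega), mul_zero]
    have g'_p : ∀ z, z ≠ p → ¬ κ p < κ z → g' p z = 0 := by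
      intro z hz hz2
      apply hP'.left
      rw [κ'_p]
      by_cases hzq : z = q
      · rw [hzq, κ'_q]; omega
      · rw [κ'_o z hz hzq]; omega
    have row_p : ∀ y, (g' * M' * k') p y = 0 := by
      intro y
      apply row_zero_mul
      intro z
      rw [Matrix.mul_apply]
      apply Finset.sum_eq_zero
      intro v _
      by_cases hv : v = p
      · have : M' v z = 0 := by
          simp only [hM', Matrix.of_apply]
          split_ifs with h
          · rw [hv]; exact M1_p z ((memC' z).mp h.2).2.1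
          · rfl
        rw [this, mul_zero]
      · by_cases hv2 : κ p < κ v
        · have : M' v z = 0 := by
            simp only [hM', Matrix.of_apply]
            split_ifs with h
            · exact M1_row v hv2 z
            · rfl
          rw [this, mul_zero]
        · rw [g'_p v hv hv2, zero_mul]
    have gc_p : (g' *ᵥ c) p = g' p p * M p q := by
      rw [Matrix.mulVec, dotProduct, Finset.sum_eq_single p]
      · simp [hc, hβqp, M1_pq]
      · intro v _ hv
        by_cases hv2 : κ p < κ v
        · simp [hc, M1_row v hv2]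
        · rw [g'_p v hv hv2, zero_mul]
      · simp
    have dp : g' p p * k' p p = 1 := by
      apply hP'.diag p
      intro z hz
      by_contra hzp
      by_cases hzq : z = q
      · rw [hzq, κ'_p, κ'_q] at hz; omega
      · rw [κ'_p, κ'_o z hzp hzq] at hz; omega
    have dq : g' q q * k' q q = 1 := by
      apply hP'.diag q
      intro z hz
      by_contra hzq
      by_cases hzp : z = p
      · rw [hzp, κ'_p, κ'_q] at hz; omega
      · rw [κ'_q, κ'_o z hzp hzq] at hz; omega
    have ht : X p q ≠ 0 := by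
      rw [X_vis p q hβqp, row_p, zero_add, gc_p]
      have : k'' q q = k' q q := by simp [hk'']
      rw [this]
      exact mul_ne_zero (mul_ne_zero (left_ne_zero_of_mul_eq_one dp) hpq)
        (right_ne_zero_of_mul_eq_one dq)
    set t : F := X p q with htdef
    set w : ι → F := fun x => if x = p then 1 / t - 1 else - X x q / t with hw
    have hw0 : ∀ x, κ p < κ x → w x = 0 := by
      intro x hx
      have : x ≠ p := by rintro rfl; omega
      simp [hw, this, X_row x hx]
    have hP2 := pair_col (κ := κ) (β := β) p w t (by simp [hw, ht]) hw0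
    refine ⟨_, _, insert (q, p) D', Pair.comp h1 (Pair.comp h1 hP1 hP'') hP2, ?_, ?_, ?_⟩
    · have n1 : ∀ e ∈ D', e.1 ≠ q := fun e he => ((memC' _).mp (hD' e he).2).2.1
      have n2 : ∀ e ∈ D', e.2 ≠ p := by
        intro e he h
        have := hE' e.2 e.1 (hD' e he).1 (hD' e he).2
        rw [if_pos he, h, row_p] at this
        exact zero_ne_one this
      constructor
      · intro a ha b hb hab
        rw [Finset.mem_insert] at ha hb
        rcases ha with rfl | ha <;> rcases hb with rfl | hb
        · rfl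
        · exact absurd hab.symm (n1 b hb)
        · exact absurd hab (n1 a ha)
        · exact hR'.1 a ha b hb hab
      · intro a ha b hb hab
        rw [Finset.mem_insert] at ha hb
        rcases ha with rfl | ha <;> rcases hb with rfl | hb
        · rfl
        · exact absurd hab.symm (n2 b hb)
        · exact absurd hab (n2 a ha)
        · exact hR'.2 a ha b hb hab
    · intro e he
      rw [Finset.mem_insert] at he
      rcases he with rfl | he
      · exact ⟨hβqp, hqC⟩
      · exact ⟨(hD' e he).1, ((memC' _).mp (hD' e he).2).2.2⟩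
    · intro x y hxy hy
      have e1 : (1 + vecMulVec w (Pi.single p 1)) * (g' * g1) * M *
          (k1 * k'' * (1 + vecMulVec (fun x => -t * w x) (Pi.single p 1))) =
          ((1 + vecMulVec w (Pi.single p 1)) * X) *
            (1 + vecMulVec (fun x => -t * w x) (Pi.single p 1)) := by
        simp only [hX, hM1, Matrix.mul_assoc]
      rw [e1]
      by_cases hyp : y = p
      · have hx : κ p < κ x := h1 _ _ (hyp ▸ hxy)
        rw [row_zero_mul, if_neg]
        · rw [Finset.mem_insert]
          rintro (h | h)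
          · exact hpneq (hyp ▸ (Prod.mk.inj h).1)
          · exact ((memC' _).mp (hD' _ h).2).1 hyp
        · intro z
          rw [one_add_col_mul, X_row x hx, hw0 x hx]; simp
      rw [mul_one_add_col _ _ _ _ _ hyp, one_add_col_mul]
      by_cases hyq : y = q
      · subst hyq
        by_cases hxp : x = p
        · subst hxp
          rw [if_pos (Finset.mem_insert_self _ _)]
          simp only [hw, if_true, ← htdef]
          field_simp
          ring
        · rw [if_neg]
          · simp only [hw, if_neg hxp, ← htdef]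
            field_simp
            ring
          · rw [Finset.mem_insert]
            rintro (h | h)
            · exact hxp (Prod.mk.inj h).2
            · exact ((memC' _).mp (hD' _ h).2).2.1 rfl
      · have hyC' : y ∈ C' := (memC' y).mpr ⟨hyp, hyq, hy⟩
        have a1 : w x * X p y = 0 := by
          by_cases hb : β y < β p
          · rw [X_vis p y hb, row_p, k''_q y hy hyq]; simp
          · rw [hw0 x (h1 _ _ (by omega)), zero_mul]
        rw [a1, add_zero, X_vis x y hxy, k''_q y hy hyq, mul_zero, add_zero, hE' x y hxy hyC']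
        have : (y, x) ∈ insert (q, p) D' ↔ (y, x) ∈ D' := by
          rw [Finset.mem_insert]
          constructor
          · rintro (h | h)
            · exact absurd (Prod.mk.inj h).1 hyq
            · exact h
          · exact Or.inr
        simp only [this]

end Pool.Agent.MP_e8bb44_al

end

-- part MP_e8bb44_al.Inv
section

set_option autoImplicit false

namespace Pool.Agent.MP_e8bb44_al

open Matrix

variable {ι : Type} {F : Type} [Field F]

/-- coordinate subspace -/
def coord (F : Type) [Field F] (A : Set ι) : Submodule F (ι → F) where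
  carrier := {v | ∀ x, x ∉ A → v x = 0}
  add_mem' := fun {a b} ha hb x hx => by simp [ha x hx, hb x hx]
  zero_mem' := fun _ _ => rfl
  smul_mem' := fun c v hv x hx => by simp [hv x hx]

theorem mem_coord {A : Set ι} {v : ι → F} : v ∈ coord F A ↔ ∀ x, x ∉ A → v x = 0 := Iff.rfl

theorem coord_mono {A B : Set ι} (h : A ⊆ B) : coord F A ≤ coord F B :=
  fun _ hv x hx => hv x (fun hA => hx (h hA))

theorem coord_lt_le (β : ι → ℕ) (j : ℕ) : coord F {x | β x < j} ≤ coord F {x | β x ≤ j} :=
  coord_mono (fun x (h : β x < j) => (le_of_lt h : β x ≤ j))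

theorem coord_inf (A B : Set ι) : coord F A ⊓ coord F B = coord F (A ∩ B) := by
  ext v
  simp only [Submodule.mem_inf, mem_coord, Set.mem_inter_iff]
  constructor
  · rintro ⟨h1, h2⟩ x hx
    by_cases ha : x ∈ A
    · exact h2 x (fun hb => hx ⟨ha, hb⟩)
    · exact h1 x ha
  · intro h
    exact ⟨fun x hx => h x (fun hh => hx hh.1), fun x hx => h x (fun hh => hx hh.2)⟩

theorem coord_sup (A B : Set ι) : coord F A ⊔ coord F B = coord F (A ∪ B) := by
  classical
  apply le_antisymm
  · exact sup_le (coord_mono Set.subset_union_left) (coord_mono Set.subset_union_right)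
  · intro v hv
    rw [Submodule.mem_sup]
    refine ⟨fun x => if x ∈ A then v x else 0, fun x hx => by simp [hx],
      fun x => if x ∈ A then 0 else v x, ?_, ?_⟩
    · intro x hx
      by_cases ha : x ∈ A
      · simp [ha]
      · simp only [ha, if_false]
        exact hv x (by simp [ha, hx])
    · ext x
      by_cases ha : x ∈ A <;> simp [ha]

theorem finrank_coord [Fintype ι] (A : Set ι) : Module.finrank F (coord F A) = A.ncard := by
  classical
  let e : coord F A ≃ₗ[F] (A → F) :=
    { toFun := fun v a => v.1 a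
      map_add' := fun _ _ => rfl
      map_smul' := fun _ _ => rfl
      invFun := fun f => ⟨fun x => if h : x ∈ A then f ⟨x, h⟩ else 0, fun x hx => by simp [hx]⟩
      left_inv := by
        intro v
        ext x
        by_cases h : x ∈ A
        · simp [h]
        · simp [h, v.2 x h]
      right_inv := by
        intro f
        ext a
        simp }
  rw [e.finrank_eq, Module.finrank_fintype_fun_eq_card, ← Nat.card_coe_set_eq,
    Nat.card_eq_fintype_card]

variable [Fintype ι] [DecidableEq ι]

omit [DecidableEq ι] in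
theorem mulVec_mem_le {β : ι → ℕ} {g : Matrix ι ι F} (hg : g.BlockTriangular β) {j : ℕ}
    {v : ι → F} (hv : v ∈ coord F {x | β x ≤ j}) : g *ᵥ v ∈ coord F {x | β x ≤ j} := by
  intro x hx
  rw [Matrix.mulVec, dotProduct]
  apply Finset.sum_eq_zero
  intro z _
  simp only [Set.mem_ofPred_eq] at hx
  by_cases h : β z < β x
  · rw [hg h, zero_mul]
  · rw [hv z (by simp only [Set.mem_ofPred_eq]; omega), mul_zero]

omit [DecidableEq ι] in
theorem mulVec_mem_lt {β : ι → ℕ} {g : Matrix ι ι F} (hg : g.BlockTriangular β) {j : ℕ}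
    {v : ι → F} (hv : v ∈ coord F {x | β x < j}) : g *ᵥ v ∈ coord F {x | β x < j} := by
  intro x hx
  rw [Matrix.mulVec, dotProduct]
  apply Finset.sum_eq_zero
  intro z _
  simp only [Set.mem_ofPred_eq] at hx
  by_cases h : β z < β x
  · rw [hg h, zero_mul]
  · rw [hv z (by simp only [Set.mem_ofPred_eq]; omega), mul_zero]

omit [DecidableEq ι] in
theorem SUp.mulVec_mem {β : ι → ℕ} {g : Matrix ι ι F} (hg : SUp β g) {j : ℕ}
    {v : ι → F} (hv : v ∈ coord F {x | β x ≤ j}) : g *ᵥ v ∈ coord F {x | β x < j} := by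
  intro x hx
  rw [Matrix.mulVec, dotProduct]
  apply Finset.sum_eq_zero
  intro z _
  simp only [Set.mem_ofPred_eq] at hx
  by_cases h : β x < β z
  · rw [hv z (by simp only [Set.mem_ofPred_eq]; omega), mul_zero]
  · rw [hg x z h, zero_mul]

theorem mem_le_of_unip {β : ι → ℕ} {u : Matrix ι ι F} (hu : SUp β (u - 1)) {j : ℕ}
    {v : ι → F} (hv : u *ᵥ v ∈ coord F {x | β x ≤ j}) : v ∈ coord F {x | β x ≤ j} := by
  classical
  by_contra hcon
  have hne : (Finset.univ.filter (fun x => v x ≠ 0)).Nonempty := by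
    by_contra h
    apply hcon
    intro x _
    by_contra hx
    exact h ⟨x, by simpa using hx⟩
  obtain ⟨x, hx, hmax⟩ := Finset.exists_max_image _ β hne
  have hx0 : v x ≠ 0 := (Finset.mem_filter.mp hx).2
  have hvx : v ∈ coord F {z | β z ≤ β x} := by
    intro z hz
    by_contra h
    exact hz (hmax z (by simpa using h))
  have hj : j < β x := by
    by_contra h
    exact hcon (coord_mono (fun z (hz : β z ≤ β x) => (by show β z ≤ j; omega)) hvx)
  have h1 := hu.mulVec_mem hvx x (by simp)
  have h2 := hv x (by simp only [Set.mem_ofPred_eq]; omega)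
  rw [Matrix.sub_mulVec, Matrix.one_mulVec, Pi.sub_apply, h2, zero_sub, neg_eq_zero] at h1
  exact hx0 h1

theorem unip_mem_iff {β : ι → ℕ} {u : Matrix ι ι F} (hu : SUp β (u - 1)) {i : ℕ}
    {U : Submodule F (ι → F)} (h1 : coord F {x | β x < i} ≤ U) (h2 : U ≤ coord F {x | β x ≤ i})
    (y : ι → F) : u *ᵥ y ∈ U ↔ y ∈ U := by
  have key : y ∈ coord F {x | β x ≤ i} → u *ᵥ y - y ∈ U := by
    intro hy
    have := h1 (hu.mulVec_mem hy)
    rwa [Matrix.sub_mulVec, Matrix.one_mulVec] at this
  constructor
  · intro h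
    have := U.sub_mem h (key (mem_le_of_unip hu (h2 h)))
    simpa using this
  · intro h
    have := U.add_mem (key (h2 h)) h
    simpa using this

/-- one step of the invariant construction -/
def pre (β : ι → ℕ) (L : Matrix ι ι F) (j : ℕ) (U : Submodule F (ι → F)) :
    Submodule F (ι → F) :=
  coord F {x | β x < j} ⊔ (U.comap L.mulVecLin ⊓ coord F {x | β x ≤ j})

/-- the iterated construction -/
def chn (β : ι → ℕ) (L : Matrix ι ι F) (base : ℕ → Submodule F (ι → F)) :
    ℕ → List ℕ → Submodule F (ι → F)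
  | j, [] => base j
  | j, i :: π => pre β L j (chn β L base i π)

omit [DecidableEq ι] in
theorem le_pre (β : ι → ℕ) (L : Matrix ι ι F) (j : ℕ) (U : Submodule F (ι → F)) :
    coord F {x | β x < j} ≤ pre β L j U := le_sup_left

omit [DecidableEq ι] in
theorem pre_le (β : ι → ℕ) (L : Matrix ι ι F) (j : ℕ) (U : Submodule F (ι → F)) :
    pre β L j U ≤ coord F {x | β x ≤ j} :=
  sup_le (coord_lt_le β _) inf_le_right

/-- matrix form of the equivalence -/
structure MEq (β : ι → ℕ) (L L' g h hi : Matrix ι ι F) : Prop where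
  hh : h.BlockTriangular β
  hhi : hi.BlockTriangular β
  inv1 : h * hi = 1
  inv2 : hi * h = 1
  tie : SUp β (h * g - 1)
  vis : (L' - g * L * h).BlockTriangular β

section

variable {β : ι → ℕ} {L L' g h hi : Matrix ι ι F}

theorem MEq.comap_sup (e : MEq β L L' g h hi) (A B : Submodule F (ι → F)) :
    (A ⊔ B).comap h.mulVecLin = A.comap h.mulVecLin ⊔ B.comap h.mulVecLin := by
  apply le_antisymm
  · intro v hv
    rw [Submodule.mem_comap, Submodule.mem_sup] at hv
    obtain ⟨a, ha, b, hb, hab⟩ := hv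
    rw [Submodule.mem_sup]
    refine ⟨hi *ᵥ a, ?_, hi *ᵥ b, ?_, ?_⟩
    · simpa [Matrix.mulVec_mulVec, e.inv1] using ha
    · simpa [Matrix.mulVec_mulVec, e.inv1] using hb
    · rw [← Matrix.mulVec_add, hab]
      simp [Matrix.mulVec_mulVec, e.inv2]
  · exact sup_le (Submodule.comap_mono le_sup_left) (Submodule.comap_mono le_sup_right)

theorem MEq.comap_lt (e : MEq β L L' g h hi) (j : ℕ) :
    (coord F {x | β x < j}).comap h.mulVecLin = coord F {x | β x < j} := by
  ext v
  rw [Submodule.mem_comap]
  constructor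
  · intro hv
    have := mulVec_mem_lt e.hhi hv
    simpa [Matrix.mulVec_mulVec, e.inv2] using this
  · exact mulVec_mem_lt e.hh

theorem MEq.comap_le (e : MEq β L L' g h hi) (j : ℕ) :
    (coord F {x | β x ≤ j}).comap h.mulVecLin = coord F {x | β x ≤ j} := by
  ext v
  rw [Submodule.mem_comap]
  constructor
  · intro hv
    have := mulVec_mem_le e.hhi hv
    simpa [Matrix.mulVec_mulVec, e.inv2] using this
  · exact mulVec_mem_le e.hh

theorem MEq.comap_pre (e : MEq β L L' g h hi) (i j : ℕ) (U : Submodule F (ι → F))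
    (h0 : coord F {x | β x ≤ j} ≤ U)
    (h1 : coord F {x | β x < i} ≤ U) (h2 : U ≤ coord F {x | β x ≤ i}) :
    (pre β L j U).comap h.mulVecLin = pre β L' j (U.comap h.mulVecLin) := by
  rw [pre, pre, e.comap_sup, e.comap_lt, Submodule.comap_inf, e.comap_le]
  congr 1
  ext v
  simp only [Submodule.mem_inf, Submodule.mem_comap, Matrix.mulVecLin_apply]
  refine and_congr_left fun hv => ?_
  have a1 : h *ᵥ ((L' - g * L * h) *ᵥ v) ∈ U := h0 (mulVec_mem_le e.hh (mulVec_mem_le e.vis hv))
  have a2 : h *ᵥ (L' *ᵥ v) = (h * g) *ᵥ (L *ᵥ (h *ᵥ v)) + h *ᵥ ((L' - g * L * h) *ᵥ v) := by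
    simp only [Matrix.sub_mulVec, Matrix.mulVec_sub, Matrix.mulVec_mulVec, Matrix.mul_assoc]
    abel
  rw [a2, U.add_mem_iff_left a1, unip_mem_iff e.tie h1 h2]

theorem MEq.finrank_comap (e : MEq β L L' g h hi) (U : Submodule F (ι → F)) :
    Module.finrank F (U.comap h.mulVecLin) = Module.finrank F U := by
  let E : (ι → F) ≃ₗ[F] (ι → F) := LinearEquiv.ofLinearMap h.mulVecLin hi.mulVecLin
    (by rw [← Matrix.mulVecLin_mul, e.inv1, Matrix.mulVecLin_one])
    (by rw [← Matrix.mulVecLin_mul, e.inv2, Matrix.mulVecLin_one])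
  have : U.comap h.mulVecLin = U.comap (E : (ι → F) →ₗ[F] (ι → F)) := rfl
  rw [this, Submodule.comap_equiv_eq_map_symm, LinearEquiv.finrank_map_eq]

theorem MEq.comap_chn (e : MEq β L L' g h hi) (base base' : ℕ → Submodule F (ι → F))
    (hb : ∀ j, (base j).comap h.mulVecLin = base' j)
    (hb1 : ∀ j, coord F {x | β x < j} ≤ base j) (hb2 : ∀ j, base j ≤ coord F {x | β x ≤ j}) :
    ∀ (π : List ℕ) (j : ℕ), List.IsChain (· < ·) (j :: π) →
      (chn β L base j π).comap h.mulVecLin = chn β L' base' j π := by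
  intro π
  induction π with
  | nil => intro j _; exact hb j
  | cons i π ih =>
    intro j hc
    rw [List.isChain_cons_cons] at hc
    have b1 : coord F {x | β x < i} ≤ chn β L base i π := by
      cases π with
      | nil => exact hb1 i
      | cons k π => exact le_pre _ _ _ _
    have b2 : chn β L base i π ≤ coord F {x | β x ≤ i} := by
      cases π with
      | nil => exact hb2 i
      | cons k π => exact pre_le _ _ _ _
    have b0 : coord F {x | β x ≤ j} ≤ chn β L base i π :=
      le_trans (coord_mono (fun x (hx : β x ≤ j) => (lt_of_le_of_lt hx hc.1 : β x < i))) b1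
    rw [chn, chn, e.comap_pre i j _ b0 b1 b2, ih i hc.2]

end

/-- the matrix of a rook placement: the root (y, x) gives the entry in row x and column y -/
def rookMat (F : Type) [Field F] (D : Finset (ι × ι)) : Matrix ι ι F :=
  Matrix.of fun x y => if (y, x) ∈ D then 1 else 0

theorem comap_rookMat {D : Finset (ι × ι)} (hD : Rook D) (A : Set ι) :
    (coord F A).comap (rookMat F D).mulVecLin = coord F {y | ∀ x, (y, x) ∈ D → x ∈ A} := by
  ext v
  simp only [Submodule.mem_comap, mem_coord, Matrix.mulVecLin_apply, Set.mem_ofPred_eq]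
  constructor
  · intro h y hy
    push Not at hy
    obtain ⟨x, hx, hxA⟩ := hy
    have := h x hxA
    rw [Matrix.mulVec, dotProduct, Finset.sum_eq_single y] at this
    · simpa [rookMat, hx] using this
    · intro z _ hz
      have : (z, x) ∉ D := fun hh => hz (Prod.mk.inj (hD.2 _ hh _ hx rfl)).1
      simp [rookMat, this]
    · simp
  · intro h x hx
    rw [Matrix.mulVec, dotProduct]
    apply Finset.sum_eq_zero
    intro z _
    by_cases hz : (z, x) ∈ D
    · rw [h z (fun hh => hx (hh x hz)), mul_zero]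
    · simp [rookMat, hz]

/-- set version of pre -/
def preS (β : ι → ℕ) (D : Finset (ι × ι)) (j : ℕ) (A : Set ι) : Set ι :=
  {x | β x < j} ∪ ({y | ∀ x, (y, x) ∈ D → x ∈ A} ∩ {x | β x ≤ j})

/-- set version of chn -/
def chnS (β : ι → ℕ) (D : Finset (ι × ι)) (base : ℕ → Set ι) : ℕ → List ℕ → Set ι
  | j, [] => base j
  | j, i :: π => preS β D j (chnS β D base i π)

theorem pre_rookMat (β : ι → ℕ) {D : Finset (ι × ι)} (hD : Rook D) (j : ℕ) (A : Set ι) :
    pre β (rookMat F D) j (coord F A) = coord F (preS β D j A) := by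
  rw [pre, comap_rookMat hD, coord_inf, coord_sup, preS]

theorem chn_rookMat (β : ι → ℕ) {D : Finset (ι × ι)} (hD : Rook D) (base : ℕ → Set ι) :
    ∀ (π : List ℕ) (j : ℕ), chn β (rookMat F D) (fun j => coord F (base j)) j π =
      coord F (chnS β D base j π) := by
  intro π
  induction π with
  | nil => intro j; rfl
  | cons i π ih => intro j; rw [chn, chnS, ih, pre_rookMat β hD]

/-- the path of D starting at x visits exactly the blocks j, then those of the list -/
def Mt (β : ι → ℕ) (D : Finset (ι × ι)) : ι → ℕ → List ℕ → Prop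
  | x, j, [] => β x = j ∧ ∀ y, (x, y) ∉ D
  | x, j, i :: π => β x = j ∧ ∃ y, (x, y) ∈ D ∧ Mt β D y i π

omit [Fintype ι] [DecidableEq ι] in
theorem chnS_diff (β : ι → ℕ) {D : Finset (ι × ι)} (hD : Rook D)
    (hβ : ∀ e ∈ D, β e.1 < β e.2) :
    ∀ (π : List ℕ) (j : ℕ) (x : ι),
      (x ∈ chnS β D (fun j => preS β D j {x | β x ≤ j}) j π ↔
        x ∈ chnS β D (fun j => {x | β x < j}) j π ∨ Mt β D x j π) ∧
      (Mt β D x j π → x ∉ chnS β D (fun j => {x | β x < j}) j π) := by
  intro π
  induction π with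
  | nil =>
    intro j x
    simp only [chnS, preS, Mt, Set.mem_union, Set.mem_inter_iff, Set.mem_ofPred_eq]
    refine ⟨⟨?_, ?_⟩, ?_⟩
    · rintro (h | ⟨h1, h2⟩)
      · exact Or.inl h
      · rcases h2.eq_or_lt with h3 | h3
        · refine Or.inr ⟨h3, fun y hy => ?_⟩
          have := h1 y hy
          have := hβ _ hy
          simp only at this
          omega
        · exact Or.inl h3
    · rintro (h | ⟨h1, h2⟩)
      · exact Or.inl h
      · exact Or.inr ⟨fun y hy => absurd hy (h2 y), h1.le⟩
    · rintro ⟨h1, _⟩; omega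
  | cons i π ih =>
    intro j x
    simp only [chnS, Mt]
    simp only [preS, Set.mem_union, Set.mem_inter_iff, Set.mem_ofPred_eq] at ih ⊢
    refine ⟨⟨?_, ?_⟩, ?_⟩
    · rintro (h | ⟨h1, h2⟩)
      · exact Or.inl (Or.inl h)
      · rcases h2.eq_or_lt with h3 | h3
        · by_cases hx : ∃ y, (x, y) ∈ D
          · obtain ⟨y, hy⟩ := hx
            rcases (ih i y).1.mp (h1 y hy) with h4 | h4
            · refine Or.inl (Or.inr ⟨fun z hz => ?_, h2⟩)
              have : z = y := (Prod.mk.inj (hD.1 _ hz _ hy rfl)).2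
              rw [this]; exact h4
            · exact Or.inr ⟨h3, y, hy, h4⟩
          · exact Or.inl (Or.inr ⟨fun z hz => absurd ⟨z, hz⟩ hx, h2⟩)
        · exact Or.inl (Or.inl h3)
    · rintro ((h | ⟨h1, h2⟩) | ⟨h1, y, hy, h2⟩)
      · exact Or.inl h
      · exact Or.inr ⟨fun z hz => (ih i z).1.mpr (Or.inl (h1 z hz)), h2⟩
      · refine Or.inr ⟨fun z hz => ?_, h1.le⟩
        have : z = y := (Prod.mk.inj (hD.1 _ hz _ hy rfl)).2
        rw [this]; exact (ih i y).1.mpr (Or.inr h2)
    · rintro ⟨h1, y, hy, h2⟩ (h | ⟨h3, _⟩)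
      · omega
      · exact (ih i y).2 h2 (h3 y hy)

omit [DecidableEq ι] in
theorem ncard_Mt (β : ι → ℕ) {D : Finset (ι × ι)} (hD : Rook D)
    (hβ : ∀ e ∈ D, β e.1 < β e.2) (π : List ℕ) (j : ℕ) :
    (chnS β D (fun j => preS β D j {x | β x ≤ j}) j π).ncard =
      (chnS β D (fun j => {x | β x < j}) j π).ncard + {x | Mt β D x j π}.ncard := by
  rw [← Set.ncard_union_eq _ (Set.toFinite _) (Set.toFinite _)]
  · congr 1
    ext x
    exact (chnS_diff β hD hβ π j x).1
  · rw [Set.disjoint_right]
    intro x hx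
    exact (chnS_diff β hD hβ π j x).2 hx

omit [Fintype ι] [DecidableEq ι] in
theorem Mt_chain (β : ι → ℕ) {D : Finset (ι × ι)} (hβ : ∀ e ∈ D, β e.1 < β e.2) :
    ∀ (π : List ℕ) (j : ℕ) (x : ι), Mt β D x j π → β x = j ∧ List.IsChain (· < ·) (j :: π) := by
  intro π
  induction π with
  | nil => intro j x h; exact ⟨h.1, List.isChain_singleton _⟩
  | cons i π ih =>
    rintro j x ⟨h1, y, hy, h2⟩
    have := ih i y h2
    have h3 := hβ _ hy
    refine ⟨h1, List.isChain_cons_cons.mpr ⟨?_, this.2⟩⟩
    simp only at h3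
    omega

theorem count_eq {β : ι → ℕ} {D D' : Finset (ι × ι)} (hD : Rook D) (hD' : Rook D')
    (hβ : ∀ e ∈ D, β e.1 < β e.2) (hβ' : ∀ e ∈ D', β e.1 < β e.2)
    {g h hi : Matrix ι ι F} (e : MEq β (rookMat F D) (rookMat F D') g h hi) (j : ℕ) (π : List ℕ) :
    {x | Mt β D x j π}.ncard = {x | Mt β D' x j π}.ncard := by
  by_cases hc : List.IsChain (· < ·) (j :: π)
  · have a1 := e.comap_chn (fun j => coord F {x | β x < j}) (fun j => coord F {x | β x < j})
      (fun j => e.comap_lt j) (fun _ => le_rfl)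
      (fun j => coord_lt_le β j) π j hc
    have a2 := e.comap_chn (fun j => coord F (preS β D j {x | β x ≤ j}))
      (fun j => coord F (preS β D' j {x | β x ≤ j}))
      (fun j => by
        rw [← pre_rookMat β hD, ← pre_rookMat β hD', e.comap_pre j j _ le_rfl
          (coord_lt_le β _) le_rfl, e.comap_le])
      (fun j => by rw [← pre_rookMat β hD]; exact le_pre _ _ _ _)
      (fun j => by rw [← pre_rookMat β hD]; exact pre_le _ _ _ _) π j hc
    rw [chn_rookMat β hD, chn_rookMat β hD'] at a1 a2
    have b1 := e.finrank_comap (coord F (chnS β D (fun j => {x | β x < j}) j π))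
    have b2 := e.finrank_comap (coord F (chnS β D (fun j => preS β D j {x | β x ≤ j}) j π))
    rw [a1, finrank_coord, finrank_coord] at b1
    rw [a2, finrank_coord, finrank_coord, ncard_Mt β hD hβ, ncard_Mt β hD' hβ'] at b2
    omega
  · have a1 : {x | Mt β D x j π} = ∅ :=
      Set.eq_empty_of_forall_notMem fun x hx => hc (Mt_chain β hβ π j x hx).2
    have a2 : {x | Mt β D' x j π} = ∅ :=
      Set.eq_empty_of_forall_notMem fun x hx => hc (Mt_chain β hβ' π j x hx).2
    rw [a1, a2]

end Pool.Agent.MP_e8bb44_al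

end

-- part MP_e8bb44_al.Comb
section

set_option autoImplicit false

namespace Pool.Agent.MP_e8bb44_al

variable {ι : Type}

theorem Mt_exists [Finite ι] (β : ι → ℕ) {D : Finset (ι × ι)} (hβ : ∀ e ∈ D, β e.1 < β e.2)
    (x : ι) : ∃ π, Mt β D x (β x) π := by
  obtain ⟨B, hB⟩ := (Set.finite_range β).bddAbove
  have hB' : ∀ x, β x ≤ B := fun x => hB ⟨x, rfl⟩
  have key : ∀ k, ∀ x, B - β x ≤ k → ∃ π, Mt β D x (β x) π := by
    intro k
    induction k with
    | zero =>
      intro x hx
      refine ⟨[], rfl, fun y hy => ?_⟩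
      have := hβ _ hy
      have := hB' y
      simp only at *
      omega
    | succ k ih =>
      intro x hx
      by_cases h : ∃ y, (x, y) ∈ D
      · obtain ⟨y, hy⟩ := h
        have h1 := hβ _ hy
        simp only at h1
        obtain ⟨π, hπ⟩ := ih y (by omega)
        exact ⟨β y :: π, rfl, y, hy, hπ⟩
      · exact ⟨[], rfl, fun y hy => h ⟨y, hy⟩⟩
  exact key _ x le_rfl

theorem Mt_fst {β : ι → ℕ} {D : Finset (ι × ι)} {x : ι} {j : ℕ} {π : List ℕ}
    (h : Mt β D x j π) : β x = j := by
  cases π with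
  | nil => exact h.1
  | cons i π => exact h.1

theorem Mt_unique {β : ι → ℕ} {D : Finset (ι × ι)} (hD : Rook D) :
    ∀ (π π' : List ℕ) (x : ι) (j j' : ℕ), Mt β D x j π → Mt β D x j' π' → π = π' := by
  intro π
  induction π with
  | nil =>
    intro π' x j j' h h'
    cases π' with
    | nil => rfl
    | cons i π' =>
      obtain ⟨_, y, hy, _⟩ := h'
      exact absurd hy (h.2 y)
  | cons i π ih =>
    intro π' x j j' h h'
    obtain ⟨_, y, hy, hm⟩ := h
    cases π' with
    | nil => exact absurd hy (h'.2 y)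
    | cons i' π' =>
      obtain ⟨_, y', hy', hm'⟩ := h'
      have : y = y' := (Prod.mk.inj (hD.1 _ hy _ hy' rfl)).2
      subst this
      rw [← Mt_fst hm, ← Mt_fst hm', ih π' y i i' hm hm']

/-- the type of a point: its block and the blocks visited by the path starting from it -/
noncomputable def tp [Finite ι] (β : ι → ℕ) {D : Finset (ι × ι)}
    (hβ : ∀ e ∈ D, β e.1 < β e.2) (x : ι) : ℕ × List ℕ :=
  (β x, Classical.choose (Mt_exists β hβ x))

theorem tp_eq_iff [Finite ι] {β : ι → ℕ} {D : Finset (ι × ι)} (hD : Rook D)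
    (hβ : ∀ e ∈ D, β e.1 < β e.2) (x : ι) (j : ℕ) (π : List ℕ) :
    tp β hβ x = (j, π) ↔ Mt β D x j π := by
  have h0 := Classical.choose_spec (Mt_exists β hβ x)
  constructor
  · intro h
    simp only [tp, Prod.mk.injEq] at h
    rw [← h.1, ← h.2]; exact h0
  · intro h
    simp only [tp, Prod.mk.injEq]
    exact ⟨Mt_fst h, Mt_unique hD _ _ x _ _ h0 h⟩

theorem tp_arc [Finite ι] {β : ι → ℕ} {D : Finset (ι × ι)} (hD : Rook D)
    (hβ : ∀ e ∈ D, β e.1 < β e.2) {x y : ι} (h : (x, y) ∈ D) :
    (tp β hβ x).2 = (tp β hβ y).1 :: (tp β hβ y).2 := by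
  have h1 : Mt β D y (tp β hβ y).1 (tp β hβ y).2 := (tp_eq_iff hD hβ y _ _).mp rfl
  have h2 : Mt β D x (β x) ((tp β hβ y).1 :: (tp β hβ y).2) := ⟨rfl, y, h, h1⟩
  rw [(tp_eq_iff hD hβ x _ _).mpr h2]

theorem arc_of_tp [Finite ι] {β : ι → ℕ} {D : Finset (ι × ι)} (hD : Rook D)
    (hβ : ∀ e ∈ D, β e.1 < β e.2) {x : ι} {τ : ℕ × List ℕ} (h : (tp β hβ x).2 = τ.1 :: τ.2) :
    ∃ y, (x, y) ∈ D ∧ tp β hβ y = τ := by
  have h1 : Mt β D x (tp β hβ x).1 (τ.1 :: τ.2) := by
    rw [← h]; exact (tp_eq_iff hD hβ x _ _).mp rfl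
  obtain ⟨_, y, hy, hm⟩ := h1
  exact ⟨y, hy, (tp_eq_iff hD hβ y _ _).mpr hm⟩

theorem ncard_nonstart [Finite ι] {β : ι → ℕ} {D : Finset (ι × ι)} (hD : Rook D)
    (hβ : ∀ e ∈ D, β e.1 < β e.2) (τ : ℕ × List ℕ) :
    {x | (tp β hβ x).2 = τ.1 :: τ.2}.ncard = {y | (∃ x, (x, y) ∈ D) ∧ tp β hβ y = τ}.ncard := by
  apply Set.ncard_congr (fun x hx => Classical.choose (arc_of_tp hD hβ hx))
  · intro x hx
    have := Classical.choose_spec (arc_of_tp hD hβ hx)
    exact ⟨⟨x, this.1⟩, this.2⟩
  · intro x x' hx hx' h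
    have a := (Classical.choose_spec (arc_of_tp hD hβ hx)).1
    have b := (Classical.choose_spec (arc_of_tp hD hβ hx')).1
    rw [h] at a
    exact (Prod.mk.inj (hD.2 _ a _ b rfl)).1
  · rintro y ⟨⟨x, hx⟩, hy⟩
    have hx' : (tp β hβ x).2 = τ.1 :: τ.2 := by rw [tp_arc hD hβ hx, hy]
    refine ⟨x, hx', ?_⟩
    have a := (Classical.choose_spec (arc_of_tp hD hβ hx')).1
    exact (Prod.mk.inj (hD.1 _ a _ hx rfl)).2

theorem exists_equiv_of_fibers {A B T : Type} [Finite A] [Finite B] (f : A → T) (g : B → T)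
    (h : ∀ τ, {a | f a = τ}.ncard = {b | g b = τ}.ncard) : ∃ e : A ≃ B, ∀ a, g (e a) = f a := by
  have : ∀ τ, Nonempty ({a // f a = τ} ≃ {b // g b = τ}) := by
    intro τ
    rw [← Finite.card_eq]
    exact h τ
  exact ⟨Equiv.ofFiberEquiv (fun τ => Classical.choice (this τ)),
    fun a => Equiv.ofFiberEquiv_map _ a⟩

open Classical in
/-- the bijection, built along the paths -/
noncomputable def build (β : ι → ℕ) (D : Finset (ι × ι)) (hβ : ∀ e ∈ D, β e.1 < β e.2)
    (s : ι → ι) (φ : {y // ¬ ∃ x, (x, y) ∈ D} → ι) (y : ι) : ι :=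
  if h : ∃ x, (x, y) ∈ D then s (build β D hβ s φ (Classical.choose h)) else φ ⟨y, h⟩
termination_by β y
decreasing_by exact hβ _ (Classical.choose_spec h)

theorem comb [Finite ι] [DecidableEq ι] {β : ι → ℕ} {D D' : Finset (ι × ι)}
    (hD : Rook D) (hD' : Rook D')
    (hβ : ∀ e ∈ D, β e.1 < β e.2) (hβ' : ∀ e ∈ D', β e.1 < β e.2)
    (hc : ∀ j π, {x | Mt β D x j π}.ncard = {x | Mt β D' x j π}.ncard) :
    ∃ w : Equiv.Perm ι, (∀ x, β (w x) = β x) ∧ D' = D.image (fun p => (w p.1, w p.2)) := by
  classical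
  have hc' : ∀ τ, {x | tp β hβ x = τ}.ncard = {x | tp β hβ' x = τ}.ncard := by
    rintro ⟨j, π⟩
    simp only [tp_eq_iff hD, tp_eq_iff hD']
    exact hc j π
  obtain ⟨σ, hσ⟩ := exists_equiv_of_fibers _ _ hc'
  have hns : ∀ τ, {y | (∃ x, (x, y) ∈ D) ∧ tp β hβ y = τ}.ncard =
      {y | (∃ x, (x, y) ∈ D') ∧ tp β hβ' y = τ}.ncard := by
    intro τ
    rw [← ncard_nonstart hD, ← ncard_nonstart hD']
    apply Set.ncard_congr (fun x _ => σ x)
    · intro x hx
      show (tp β hβ' (σ x)).2 = _
      rw [hσ]; exact hx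
    · intro x x' _ _ h; exact σ.injective h
    · intro y hy
      refine ⟨σ.symm y, ?_, by simp⟩
      show (tp β hβ (σ.symm y)).2 = _
      rw [← hσ]; simpa using hy
  have split : ∀ (E : Finset (ι × ι)) (hE : ∀ e ∈ E, β e.1 < β e.2) (τ : ℕ × List ℕ),
      {y | tp β hE y = τ}.ncard = {y | (∃ x, (x, y) ∈ E) ∧ tp β hE y = τ}.ncard +
        {y : {y // ¬ ∃ x, (x, y) ∈ E} | tp β hE y.1 = τ}.ncard := by
    intro E hE τ
    rw [← Set.ncard_image_of_injective {y : {y // ¬ ∃ x, (x, y) ∈ E} | tp β hE y.1 = τ}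
      Subtype.val_injective, ← Set.ncard_union_eq _ (Set.toFinite _) (Set.toFinite _)]
    · congr 1
      ext y
      by_cases h : ∃ x, (x, y) ∈ E
      · simp only [Set.mem_ofPred_eq, Set.mem_union, Set.mem_image]
        constructor
        · intro a; exact Or.inl ⟨h, a⟩
        · rintro (a | ⟨z, a, rfl⟩)
          · exact a.2
          · exact a
      · simp only [Set.mem_ofPred_eq, Set.mem_union, Set.mem_image]
        constructor
        · intro a; exact Or.inr ⟨⟨y, h⟩, a, rfl⟩
        · rintro (a | ⟨z, a, rfl⟩)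
          · exact a.2
          · exact a
    · rw [Set.disjoint_left]
      rintro y ⟨h, _⟩ ⟨z, _, rfl⟩
      exact z.2 h
  obtain ⟨φ, hφ⟩ := exists_equiv_of_fibers
    (fun y : {y // ¬ ∃ x, (x, y) ∈ D} => tp β hβ y.1)
    (fun y : {y // ¬ ∃ x, (x, y) ∈ D'} => tp β hβ' y.1) (by
      intro τ
      have a := split D hβ τ
      have b := split D' hβ' τ
      have c := hc' τ
      have d := hns τ
      omega)
  let s : ι → ι := fun x => if h : ∃ y, (x, y) ∈ D' then Classical.choose h else x
  have hs : ∀ x y, (x, y) ∈ D' → s x = y := by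
    intro x y h
    have h1 : ∃ y, (x, y) ∈ D' := ⟨y, h⟩
    simp only [s, dif_pos h1]
    exact (Prod.mk.inj (hD'.1 _ (Classical.choose_spec h1) _ h rfl)).2
  let w : ι → ι := build β D hβ s (fun y => (φ y).1)
  have w_arc : ∀ x y, (x, y) ∈ D → w y = s (w x) := by
    intro x y h
    have h1 : ∃ x, (x, y) ∈ D := ⟨x, h⟩
    have h2 : Classical.choose h1 = x :=
      (Prod.mk.inj (hD.2 _ (Classical.choose_spec h1) _ h rfl)).1
    simp only [w]
    rw [build, dif_pos h1, h2]
  have w_start : ∀ y (h : ¬ ∃ x, (x, y) ∈ D), w y = (φ ⟨y, h⟩).1 := by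
    intro y h
    simp only [w]
    rw [build, dif_neg h]
  have step : ∀ x y, (x, y) ∈ D → tp β hβ' (w x) = tp β hβ x →
      (w x, w y) ∈ D' ∧ tp β hβ' (w y) = tp β hβ y := by
    intro x y h ih
    have a : (tp β hβ' (w x)).2 = (tp β hβ y).1 :: (tp β hβ y).2 := by
      rw [ih, tp_arc hD hβ h]
    obtain ⟨z, hz, hz2⟩ := arc_of_tp hD' hβ' a
    rw [w_arc x y h, hs _ _ hz]
    exact ⟨hz, hz2⟩
  have w_tp : ∀ k y, β y < k → tp β hβ' (w y) = tp β hβ y := by
    intro k
    induction k with
    | zero => intro y hy; omega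
    | succ k ih =>
      intro y hy
      by_cases h : ∃ x, (x, y) ∈ D
      · obtain ⟨x, hx⟩ := h
        have := hβ _ hx
        simp only at this
        exact (step x y hx (ih x (by omega))).2
      · rw [w_start y h]; exact hφ ⟨y, h⟩
  have w_tp' : ∀ y, tp β hβ' (w y) = tp β hβ y := fun y => w_tp _ y (Nat.lt_succ_self _)
  have w_mem : ∀ x y, (x, y) ∈ D → (w x, w y) ∈ D' := fun x y h => (step x y h (w_tp' x)).1
  have w_inj : ∀ k y y', β y < k → w y = w y' → y = y' := by
    intro k
    induction k with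
    | zero => intro y y' hy; omega
    | succ k ih =>
      intro y y' hy h
      by_cases a : ∃ x, (x, y) ∈ D <;> by_cases b : ∃ x, (x, y') ∈ D
      · obtain ⟨x, hx⟩ := a
        obtain ⟨x', hx'⟩ := b
        have c := hβ _ hx
        simp only at c
        have d := w_mem _ _ hx
        rw [h] at d
        have e : w x = w x' := (Prod.mk.inj (hD'.2 _ d _ (w_mem _ _ hx') rfl)).1
        have f := ih x x' (by omega) e
        rw [f] at hx
        exact (Prod.mk.inj (hD.1 _ hx _ hx' rfl)).2
      · obtain ⟨x, hx⟩ := a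
        have d := w_mem _ _ hx
        rw [h, w_start y' b] at d
        exact absurd ⟨_, d⟩ (φ ⟨y', b⟩).2
      · obtain ⟨x, hx⟩ := b
        have d := w_mem _ _ hx
        rw [← h, w_start y a] at d
        exact absurd ⟨_, d⟩ (φ ⟨y, a⟩).2
      · rw [w_start y a, w_start y' b] at h
        have := φ.injective (Subtype.ext h)
        exact congrArg Subtype.val this
  have hinj : Function.Injective w := fun y y' h => w_inj _ y y' (Nat.lt_succ_self _) h
  have hbij : Function.Bijective w := Finite.injective_iff_bijective.mp hinj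
  refine ⟨Equiv.ofBijective w hbij, fun x => congrArg Prod.fst (w_tp' x), ?_⟩
  ext ⟨a, b⟩
  simp only [Finset.mem_image, Equiv.ofBijective_apply]
  constructor
  · intro h
    obtain ⟨x, rfl⟩ := hbij.2 a
    have e : (tp β hβ x).2 = (tp β hβ' b).1 :: (tp β hβ' b).2 := by
      rw [← w_tp' x, tp_arc hD' hβ' h]
    obtain ⟨y, hy, _⟩ := arc_of_tp hD hβ e
    exact ⟨(x, y), hy, hD'.1 _ (w_mem _ _ hy) _ h rfl⟩
  · rintro ⟨⟨x, y⟩, h, e⟩
    rw [← e]; exact w_mem x y h

end Pool.Agent.MP_e8bb44_al

end

-- part MP_e8bb44_al.Main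
section

set_option autoImplicit false

namespace Pool.Agent.MP_e8bb44_al

open Matrix

section General

variable {ι : Type} [Fintype ι] [DecidableEq ι] {F : Type} [Field F]

omit [DecidableEq ι] in
theorem trace_vis {β : ι → ℕ} {A B z : Matrix ι ι F} (h : (A - B).BlockTriangular β)
    (hz : SUp β z) : trace (A * z) = trace (B * z) := by
  have h1 : SUp β ((A - B) * z) := hz.mul_left h
  have h2 : trace ((A - B) * z) = 0 := by
    apply Finset.sum_eq_zero
    intro x _
    exact h1 x x (lt_irrefl _)
  rwa [Matrix.sub_mul, trace_sub, sub_eq_zero] at h2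

omit [Fintype ι] in
theorem sup_single {β : ι → ℕ} {x y : ι} (h : β x < β y) : SUp β (single x y (1 : F)) := by
  intro a b hab
  apply Matrix.single_apply_of_ne
  rintro ⟨rfl, rfl⟩
  exact hab h

theorem vis_of_trace {β : ι → ℕ} {A B : Matrix ι ι F}
    (h : ∀ z, SUp β z → trace (A * z) = trace (B * z)) : (A - B).BlockTriangular β := by
  intro x y hxy
  have := h _ (sup_single hxy)
  rw [Matrix.trace_mul_single, Matrix.trace_mul_single] at this
  simpa [sub_eq_zero] using this

theorem trace_rookMat (D : Finset (ι × ι)) (z : Matrix ι ι F) :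
    trace (rookMat F D * z) = ∑ p ∈ D, z p.1 p.2 := by
  simp only [trace, diag, Matrix.mul_apply, rookMat, Matrix.of_apply, ite_mul, one_mul, zero_mul]
  rw [Finset.sum_comm, ← Fintype.sum_prod_type' (f := fun x y => if (x, y) ∈ D then z x y else 0)]
  simp [Finset.sum_ite_mem]

/-- block diagonal -/
def BD (β : ι → ℕ) (r : Matrix ι ι F) : Prop := ∀ x y, β x ≠ β y → r x y = 0

omit [Fintype ι] [DecidableEq ι] in
theorem BD.bt {β : ι → ℕ} {r : Matrix ι ι F} (h : BD β r) : r.BlockTriangular β :=
  fun x y hxy => h x y (by omega)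

omit [DecidableEq ι] in
theorem BD.mul {β : ι → ℕ} {r s : Matrix ι ι F} (hr : BD β r) (hs : BD β s) : BD β (r * s) := by
  intro x y hxy
  rw [Matrix.mul_apply]
  apply Finset.sum_eq_zero
  intro z _
  by_cases h : β x = β z
  · rw [hs z y (by omega), mul_zero]
  · rw [hr x z h, zero_mul]

/-- block diagonal part -/
def dpart (β : ι → ℕ) (g : Matrix ι ι F) : Matrix ι ι F :=
  Matrix.of fun x y => if β x = β y then g x y else 0

omit [Fintype ι] [DecidableEq ι] in
theorem dpart_bd (β : ι → ℕ) (g : Matrix ι ι F) : BD β (dpart β g) :=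
  fun x y h => by simp [dpart, h]

omit [Fintype ι] [DecidableEq ι] in
theorem sub_dpart {β : ι → ℕ} {g : Matrix ι ι F} (hg : g.BlockTriangular β) :
    SUp β (g - dpart β g) := by
  intro x y h
  by_cases h1 : β x = β y
  · simp [dpart, h1]
  · simp [dpart, h1, hg (show β y < β x by omega)]

theorem dpart_mul {β : ι → ℕ} {g h : Matrix ι ι F} (p : Pair β β g h) :
    dpart β g * dpart β h = 1 := by
  have h1 : SUp β (dpart β g * dpart β h - 1) := by
    have : dpart β g * dpart β h - 1 =
        (g * h - 1) - ((g - dpart β g) * h + dpart β g * (h - dpart β h)) := by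
      simp only [Matrix.mul_sub, Matrix.sub_mul]; abel
    rw [this]
    exact p.tie.sub (((sub_dpart p.left).mul_right p.right).add
      ((sub_dpart p.right).mul_left (dpart_bd β g).bt))
  have h2 := (dpart_bd β g).mul (dpart_bd β h)
  ext x y
  by_cases h : β x < β y
  · rw [h2 x y (by omega), Matrix.one_apply_ne (by rintro rfl; omega)]
  · exact sub_eq_zero.mp (h1 x y h)

omit [Fintype ι] in
theorem bt_of_unip {β : ι → ℕ} {a : Matrix ι ι F} (h : SUp β (a - 1)) : a.BlockTriangular β := by
  have : a = (a - 1) + 1 := by abel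
  rw [this]; exact h.bt.add blockTriangular_one

theorem isUnit_of_unip {β : ι → ℕ} {a : Matrix ι ι F} (h : SUp β (a - 1)) : IsUnit a := by
  rw [← Matrix.mulVec_injective_iff_isUnit]
  intro v v' hv
  have h' : SUp (fun x => β x + 1) (a - 1) := fun x y hxy => h x y (by simpa using hxy)
  have h0 : a *ᵥ (v - v') ∈ coord F {x | β x + 1 ≤ 0} := by
    rw [Matrix.mulVec_sub, hv, sub_self]; exact Submodule.zero_mem _
  have h1 := mem_le_of_unip h' h0
  ext x
  exact sub_eq_zero.mp (h1 x (by simp))

theorem bt_inv {β : ι → ℕ} {h hi : Matrix ι ι F} (hh : h.BlockTriangular β) (e : h * hi = 1) :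
    hi.BlockTriangular β := by
  let _ := invertibleOfRightInverse _ _ e
  rw [← Matrix.inv_eq_right_inv e]
  exact blockTriangular_inv_of_blockTriangular hh

end General

variable {n : ℕ} {F : Type} [Field F]

/-- block number as a natural number -/
def blk (c : Composition n) (i : Fin n) : ℕ := (c.index i).val

theorem mem_nilRad (c : Composition n) (x : Matrix (Fin n) (Fin n) F) :
    x ∈ nilRad F c ↔ SUp (blk c) x := Iff.rfl

theorem bd_iff (c : Composition n) (r : Matrix (Fin n) (Fin n) F) :
    (∀ i j, c.index i ≠ c.index j → r i j = 0) ↔ BD (blk c) r := by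
  simp only [BD, blk, ne_eq, Fin.ext_iff]

/-- the matrix of a linear form -/
def formMat (c : Composition n) (l : Module.Dual F (nilRad F c)) : Matrix (Fin n) (Fin n) F :=
  Matrix.of fun y x => if h : blk c x < blk c y then l ⟨single x y 1, sup_single h⟩ else 0

theorem form_eval (c : Composition n) (l : Module.Dual F (nilRad F c)) (z : nilRad F c) :
    l z = trace (formMat c l * (z : Matrix (Fin n) (Fin n) F)) := by
  let e : Fin n → Fin n → nilRad F c := fun x y =>
    if h : blk c x < blk c y then ⟨single x y 1, sup_single h⟩ else 0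
  have h1 : z = ∑ x, ∑ y, (z : Matrix (Fin n) (Fin n) F) x y • e x y := by
    apply Subtype.ext
    rw [Matrix.matrix_eq_sum_single (z : Matrix (Fin n) (Fin n) F)]
    simp only [Submodule.coe_sum, Submodule.coe_smul]
    conv_rhs => rw [← Matrix.matrix_eq_sum_single (z : Matrix (Fin n) (Fin n) F)]
    apply Finset.sum_congr rfl
    intro x _
    apply Finset.sum_congr rfl
    intro y _
    by_cases h : blk c x < blk c y
    · simp [e, h]
    · simp [e, h, (mem_nilRad c _).mp z.2 x y h]
  conv_lhs => rw [h1]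
  simp only [map_sum, map_smul, smul_eq_mul, trace, diag, Matrix.mul_apply, formMat,
    Matrix.of_apply]
  rw [Finset.sum_comm]
  apply Finset.sum_congr rfl
  intro y _
  apply Finset.sum_congr rfl
  intro x _
  by_cases h : blk c x < blk c y
  · simp [e, h, mul_comm]
  · simp [e, h]

theorem rook_eval (c : Composition n) (D : Finset (Fin n × Fin n)) (z : nilRad F c) :
    rookForm F c D z = trace (rookMat F D * (z : Matrix (Fin n) (Fin n) F)) := by
  rw [trace_rookMat]; rfl

theorem q1 (c : Composition n) (l : Module.Dual F (nilRad F c)) :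
    ∃ D, IsRookPlacement c D ∧ Equivalent c l (rookForm F c D) := by
  obtain ⟨g, h, D, hP, hR, hD, hE⟩ := core (blk c) _ Finset.univ (blk c) (formMat c l) le_rfl
    (fun _ _ h => h) (fun _ _ _ _ h => h) (by
      intro x y hxy
      refine ⟨?_, Finset.mem_univ _⟩
      by_contra hc
      simp [formMat, hc] at hxy)
  have e1 := dpart_mul hP
  have e2 : dpart (blk c) h * dpart (blk c) g = 1 := mul_eq_one_comm.mp e1
  refine ⟨D, ⟨fun p hp => (hD p hp).1, hR.1, hR.2⟩,
    ⟨dpart (blk c) g, dpart (blk c) h, e1, e2⟩, dpart (blk c) h * g, h * dpart (blk c) g,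
    (bd_iff c _).mpr (dpart_bd _ _), ?_, ?_, ?_⟩
  · rw [mem_nilRad, ← e2, ← Matrix.mul_sub]
    exact (sub_dpart hP.left).mul_left (dpart_bd _ _).bt
  · rw [mem_nilRad, ← e2, ← Matrix.sub_mul]
    exact (sub_dpart hP.right).mul_right (dpart_bd _ _).bt
  · intro z
    have e3 : h * dpart (blk c) g * dpart (blk c) h * (z : Matrix (Fin n) (Fin n) F) *
        dpart (blk c) g * (dpart (blk c) h * g) = h * z * g := by
      calc _ = h * (dpart (blk c) g * dpart (blk c) h) * (z : Matrix (Fin n) (Fin n) F) *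
          (dpart (blk c) g * dpart (blk c) h) * g := by simp only [Matrix.mul_assoc]
        _ = _ := by rw [e1]; simp
    have hz : SUp (blk c) (z : Matrix (Fin n) (Fin n) F) := z.2
    refine ⟨?_, ?_⟩
    · show h * dpart (blk c) g * dpart (blk c) h * (z : Matrix (Fin n) (Fin n) F) *
        dpart (blk c) g * (dpart (blk c) h * g) ∈ _
      rw [e3, mem_nilRad]
      exact (hz.mul_left hP.right).mul_right hP.left
    · rw [rook_eval, form_eval]
      show _ = trace (formMat c l * (h * dpart (blk c) g * dpart (blk c) h *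
        (z : Matrix (Fin n) (Fin n) F) * dpart (blk c) g * (dpart (blk c) h * g)))
      rw [e3, ← Matrix.mul_assoc, Matrix.trace_mul_comm _ g, ← Matrix.mul_assoc,
        ← Matrix.mul_assoc]
      apply trace_vis (β := blk c) _ hz
      intro x y hxy
      rw [Matrix.sub_apply, hE x y hxy (Finset.mem_univ _)]
      simp [rookMat]

theorem q2 (c : Composition n) (D D' : Finset (Fin n × Fin n)) (hD : IsRookPlacement c D)
    (hD' : IsRookPlacement c D') :
    Equivalent c (rookForm F c D) (rookForm F c D') ↔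
      ∃ w : Equiv.Perm (Fin n), (∀ i, c.index (w i) = c.index i) ∧
        D' = D.image (fun p => (w p.1, w p.2)) := by
  constructor
  · rintro ⟨r, a, b, hr, ha, hb, h⟩
    rw [bd_iff] at hr
    rw [mem_nilRad] at ha hb
    set R : Matrix (Fin n) (Fin n) F := (r : Matrix (Fin n) (Fin n) F) with hR
    set S : Matrix (Fin n) (Fin n) F := ((r⁻¹ : GL (Fin n) F) : Matrix (Fin n) (Fin n) F) with hS
    have e1 : R * S = 1 := r.mul_inv
    have e2 : S * R = 1 := r.inv_mul
    have hSb : S.BlockTriangular (blk c) := bt_inv hr.bt e1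
    obtain ⟨b', hb'⟩ := (isUnit_of_unip hb).exists_right_inv
    have hb'' : b' * b = 1 := mul_eq_one_comm.mp hb'
    have e3 : b * S * (R * b') = 1 := by
      rw [Matrix.mul_assoc, ← Matrix.mul_assoc S, e2, Matrix.one_mul, hb']
    have hh : (b * S).BlockTriangular (blk c) := (bt_of_unip hb).mul hSb
    have e : MEq (blk c) (rookMat F D) (rookMat F D') (R * a) (b * S) (R * b') := by
      refine ⟨hh, bt_inv hh e3, e3, mul_eq_one_comm.mp e3, ?_, ?_⟩
      · have : b * S * (R * a) - 1 = (b - 1) * a + (a - 1) := by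
          rw [Matrix.mul_assoc, ← Matrix.mul_assoc S, e2, Matrix.one_mul, Matrix.sub_mul,
            Matrix.one_mul]
          abel
        rw [this]
        exact (hb.mul_right (bt_of_unip ha)).add ha
      · apply vis_of_trace
        intro z hz
        obtain ⟨h1, h2⟩ := h ⟨z, hz⟩
        rw [rook_eval, rook_eval] at h2
        rw [h2]
        show trace (rookMat F D * (b * S * z * R * a)) = _
        rw [Matrix.mul_assoc (b * S * z), ← Matrix.mul_assoc, Matrix.trace_mul_comm _ (R * a)]
        simp only [Matrix.mul_assoc]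
    obtain ⟨w, hw1, hw2⟩ := comb (β := blk c) ⟨hD.2.1, hD.2.2⟩ ⟨hD'.2.1, hD'.2.2⟩ hD.1 hD'.1
      (fun j π => count_eq ⟨hD.2.1, hD.2.2⟩ ⟨hD'.2.1, hD'.2.2⟩ hD.1 hD'.1 e j π)
    exact ⟨w, fun i => Fin.ext (hw1 i), hw2⟩
  · rintro ⟨w, hw, rfl⟩
    let R : Matrix (Fin n) (Fin n) F := Matrix.of fun i j => if i = w j then 1 else 0
    let S : Matrix (Fin n) (Fin n) F := Matrix.of fun i j => if w i = j then 1 else 0
    have hS : ∀ (z : Matrix (Fin n) (Fin n) F) i j, (S * z) i j = z (w i) j := by
      intro z i j; simp [S, Matrix.mul_apply]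
    have hR : ∀ (z : Matrix (Fin n) (Fin n) F) i j, (z * R) i j = z i (w j) := by
      intro z i j; simp [R, Matrix.mul_apply]
    have e2 : S * R = 1 := by
      ext i j
      rw [hS]
      simp [R, Matrix.one_apply]
    have e1 : R * S = 1 := mul_eq_one_comm.mp e2
    refine ⟨⟨R, S, e1, e2⟩, 1, 1, ?_, by simp, by simp, ?_⟩
    · intro i j hij
      have : i ≠ w j := by rintro rfl; exact hij (hw j)
      simp [R, this]
    · intro z
      have e3 : ∀ i j, ((1 : Matrix (Fin n) (Fin n) F) * S * (z : Matrix (Fin n) (Fin n) F) * R * (1 : Matrix (Fin n) (Fin n) F)) i j =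
          (z : Matrix (Fin n) (Fin n) F) (w i) (w j) := by
        intro i j
        rw [Matrix.mul_one, Matrix.one_mul, hR, hS]
      refine ⟨?_, ?_⟩
      · intro i j hij
        show ((1 : Matrix (Fin n) (Fin n) F) * S * (z : Matrix (Fin n) (Fin n) F) * R * (1 : Matrix (Fin n) (Fin n) F)) i j = 0
        rw [e3]
        apply z.2
        rw [hw, hw]; exact hij
      · show ∑ p ∈ D.image (fun p => (w p.1, w p.2)), (z : Matrix (Fin n) (Fin n) F) p.1 p.2 =
          ∑ p ∈ D, ((1 : Matrix (Fin n) (Fin n) F) * S * (z : Matrix (Fin n) (Fin n) F) * R * (1 : Matrix (Fin n) (Fin n) F)) p.1 p.2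
        rw [Finset.sum_image]
        · simp only [e3]
        · intro p _ q _ h
          simp only [Prod.mk.injEq] at h
          exact Prod.ext (w.injective h.1) (w.injective h.2)

end Pool.Agent.MP_e8bb44_al

end
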